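import Pool.Agent.Helper41.KV.GoalsE

/-!
Packet KV-ECL2 (MP_66be51_an): primitives in the classes `IsE` and `IsW`.
-/

namespace Pool.Agent.Helper41.KV

open Real MeasureTheory Set

namespace ECL2Aux

lemma tail_int {f : ℝ → ℝ} (hf : Continuous f) {C μ : ℝ} (hμ : 0 < μ)
    (h : ∀ t, 0 ≤ t → |f t| ≤ C * Real.exp (-(μ * t))) {y : ℝ} (hy : 0 ≤ y) :
    IntegrableOn f (Ioi y) ∧ |∫ t in Ioi y, f t| ≤ C / μ * Real.exp (-(μ * y)) := by
  have e0 : (fun t : ℝ => C * Real.exp (-(μ * t))) = fun t => C * Real.exp ((-μ) * t) := by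
    funext t; rw [neg_mul]
  have hI : IntegrableOn (fun t : ℝ => C * Real.exp (-(μ * t))) (Ioi y) := by
    rw [e0]
    exact (integrableOn_exp_mul_Ioi (by linarith : -μ < 0) y).const_mul C
  have hb : ∀ᵐ t ∂(volume.restrict (Ioi y)), ‖f t‖ ≤ C * Real.exp (-(μ * t)) := by
    rw [ae_restrict_iff' measurableSet_Ioi]
    refine Filter.Eventually.of_forall (fun t ht => ?_)
    rw [Real.norm_eq_abs]
    exact h t (hy.trans (le_of_lt ht))
  refine ⟨Integrable.mono' hI hf.aestronglyMeasurable hb, ?_⟩
  have h1 : ‖∫ t in Ioi y, f t‖ ≤ ∫ t in Ioi y, C * Real.exp (-(μ * t)) :=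
    norm_integral_le_of_norm_le hI hb
  rw [Real.norm_eq_abs] at h1
  refine h1.trans (le_of_eq ?_)
  rw [e0, integral_const_mul, integral_exp_mul_Ioi (by linarith : -μ < 0)]
  rw [neg_mul, neg_div_neg_eq]
  ring

lemma prim_hasDeriv {f : ℝ → ℝ} (hf : Continuous f) (c : ℝ) (y : ℝ) :
    HasDerivAt (fun u => c + ∫ t in (0:ℝ)..u, f t) (f y) y := by
  exact (intervalIntegral.integral_hasDerivAt_right (hf.intervalIntegrable _ _)
    (hf.stronglyMeasurableAtFilter _ _) hf.continuousAt).const_add c

lemma deriv_eq {f F : ℝ → ℝ} (h : ∀ y, HasDerivAt F (f y) y) : deriv F = f :=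
  funext fun y => (h y).deriv

lemma smooth {f F : ℝ → ℝ} (hf : ContDiff ℝ (⊤ : ℕ∞) f) (h : ∀ y, HasDerivAt F (f y) y) :
    ContDiff ℝ (⊤ : ℕ∞) F := by
  refine (contDiff_infty_iff_deriv (𝕜 := ℝ) (f := F)).mpr
    ⟨fun y => (h y).differentiableAt, ?_⟩
  rw [deriv_eq h]; exact hf

lemma iter {f F : ℝ → ℝ} (h : ∀ y, HasDerivAt F (f y) y) (k : ℕ) :
    iteratedDeriv (k + 1) F = iteratedDeriv k f := by
  rw [iteratedDeriv_succ', deriv_eq h]

lemma exp_mono {μ μ' t C : ℝ} (hC : 0 ≤ C) (h : μ ≤ μ') (ht : 0 ≤ t) :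
    C * Real.exp (-(μ' * t)) ≤ C * Real.exp (-(μ * t)) := by
  apply mul_le_mul_of_nonneg_left _ hC
  apply Real.exp_le_exp.mpr
  have := mul_le_mul_of_nonneg_right h ht
  linarith

end ECL2Aux

open ECL2Aux

theorem thm_ECL2 (_hE : S_ECL1) : S_ECL2 := by
  constructor
  · -- first part
    intro f hf h0
    have hcont : Continuous f := hf.1.continuous
    have hb := hf.2 0
    simp only [iteratedDeriv_zero] at hb
    -- integrability
    obtain ⟨C₀, hC₀⟩ := hb (1/2) (by norm_num)
    have hIr : IntegrableOn f (Ioi 0) := (tail_int hcont (by norm_num : (0:ℝ) < 1/2)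
      (fun t ht => by have := hC₀ t; rwa [abs_of_nonneg ht] at this) le_rfl).1
    have hIl' : IntegrableOn (fun t => f (-t)) (Ioi 0) := (tail_int (hcont.comp continuous_neg)
      (by norm_num : (0:ℝ) < 1/2)
      (fun t ht => by have := hC₀ (-t); rwa [abs_neg, abs_of_nonneg ht] at this) le_rfl).1
    have hIl : IntegrableOn f (Iic 0) := by
      rw [← neg_zero] at hIl'
      have := hIl'.comp_neg_Iio
      rw [integrableOn_Iic_iff_integrableOn_Iio]
      simpa only [neg_neg] using this
    have hI : Integrable f := by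
      rw [← integrableOn_univ, ← Iic_union_Ioi (a := (0:ℝ))]
      exact hIl.union hIr
    set c : ℝ := -∫ t in Ioi (0:ℝ), f t with hc
    have hder := prim_hasDeriv hcont c
    have hFr : ∀ y, c + ∫ t in (0:ℝ)..y, f t = -∫ t in Ioi y, f t := by
      intro y
      have := intervalIntegral.integral_interval_add_Ioi (μ := volume) (a := 0) (b := y)
        hI.integrableOn hI.integrableOn (f := f)
      rw [hc]
      linarith
    have hFl : ∀ y, c + ∫ t in (0:ℝ)..y, f t = ∫ t in Ioi (-y), f (-t) := by
      intro y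
      rw [hFr, integral_comp_neg_Ioi (-y) f, neg_neg]
      have := intervalIntegral.integral_Iic_add_Ioi (μ := volume) (b := y) (f := f)
        hI.integrableOn hI.integrableOn
      rw [h0] at this
      linarith
    refine ⟨fun y => c + ∫ t in (0:ℝ)..y, f t, ⟨smooth hf.1 hder, ?_⟩, hder⟩
    intro k μ hμ
    rcases k with _ | k
    · simp only [iteratedDeriv_zero]
      set μ' := max μ (1/2) with hμ'
      have hμ1 : μ' < 1 := max_lt hμ (by norm_num)
      have hμ0 : 0 < μ' := lt_of_lt_of_le (by norm_num) (le_max_right _ _)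
      obtain ⟨C, hC⟩ := hb μ' hμ1
      have hC0 : 0 ≤ C := by
        have := hC 0
        simp only [abs_zero, mul_zero, neg_zero, Real.exp_zero, mul_one] at this
        exact (abs_nonneg _).trans this
      refine ⟨C / μ', fun y => ?_⟩
      refine le_trans ?_ (exp_mono (div_nonneg hC0 hμ0.le) (le_max_left μ (1/2)) (abs_nonneg y))
      rcases le_total 0 y with hy | hy
      · rw [hFr y, abs_neg, abs_of_nonneg hy]
        exact (tail_int hcont hμ0
          (fun t ht => by have := hC t; rwa [abs_of_nonneg ht] at this) hy).2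
      · rw [hFl y, abs_of_nonpos hy]
        exact (tail_int (hcont.comp continuous_neg) hμ0
          (fun t ht => by have := hC (-t); rwa [abs_neg, abs_of_nonneg ht] at this)
          (by linarith : 0 ≤ -y)).2
    · rw [iter hder k]
      exact hf.2 k μ hμ
  · -- second part
    intro R hR
    have hcont : Continuous R := hR.1.1.continuous
    have hb := hR.2 0
    simp only [iteratedDeriv_zero] at hb
    obtain ⟨C₀, hC₀⟩ := hb (1/2) (by norm_num)
    have hIr : ∀ y, 0 ≤ y → IntegrableOn R (Ioi y) := fun y hy =>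
      (tail_int hcont (by norm_num : (0:ℝ) < 1/2) hC₀ hy).1
    set c : ℝ := -∫ t in Ioi (0:ℝ), R t with hc
    have hder := prim_hasDeriv hcont c
    have hFr : ∀ y, 0 ≤ y → c + ∫ t in (0:ℝ)..y, R t = -∫ t in Ioi y, R t := by
      intro y hy
      have := intervalIntegral.integral_interval_add_Ioi (μ := volume) (a := 0) (b := y)
        (hIr 0 le_rfl) (hIr y hy) (f := R)
      rw [hc]
      linarith
    refine ⟨fun y => c + ∫ t in (0:ℝ)..y, R t, ⟨⟨smooth hR.1.1 hder, ?_⟩, ?_⟩, hder⟩
    · intro k
      rcases k with _ | k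
      · simp only [iteratedDeriv_zero]
        obtain ⟨n, C, hC⟩ := hR.1.2 0
        simp only [iteratedDeriv_zero] at hC
        have hC0 : 0 ≤ C := by
          have := hC 0
          simp only [abs_zero, add_zero, one_pow, mul_one] at this
          exact (abs_nonneg _).trans this
        refine ⟨n + 1, |c| + C, fun y => ?_⟩
        have h1 : |∫ t in (0:ℝ)..y, R t| ≤ C * (1 + |y|) ^ n * |y - 0| := by
          rw [← Real.norm_eq_abs]
          apply intervalIntegral.norm_integral_le_of_norm_le_const
          intro t ht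
          rw [Real.norm_eq_abs]
          refine (hC t).trans (mul_le_mul_of_nonneg_left ?_ hC0)
          apply pow_le_pow_left₀ (by positivity)
          have : |t| ≤ |y| := by
            rcases le_total 0 y with hy | hy
            · rw [uIoc_of_le hy] at ht
              rw [abs_of_nonneg hy, abs_of_nonneg ht.1.le]; exact ht.2
            · rw [uIoc_of_ge hy] at ht
              rw [abs_of_nonpos hy, abs_of_nonpos ht.2]; linarith [ht.1]
          linarith
        rw [sub_zero] at h1
        have h2 : (1:ℝ) ≤ (1 + |y|) ^ (n + 1) := one_le_pow₀ (by linarith [abs_nonneg y])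
        have h3 : (1 + |y|) ^ n * |y| ≤ (1 + |y|) ^ (n + 1) := by
          rw [pow_succ]
          apply mul_le_mul_of_nonneg_left _ (by positivity)
          linarith
        calc |c + ∫ t in (0:ℝ)..y, R t| ≤ |c| + |∫ t in (0:ℝ)..y, R t| := abs_add_le _ _
          _ ≤ |c| * (1 + |y|) ^ (n + 1) + C * (1 + |y|) ^ (n + 1) := by
            have h4 := mul_le_mul_of_nonneg_left h2 (abs_nonneg c)
            have h5 := mul_le_mul_of_nonneg_left h3 hC0
            rw [← mul_assoc] at h5
            linarith
          _ = (|c| + C) * (1 + |y|) ^ (n + 1) := by ring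
      · rw [iter hder k]
        exact hR.1.2 k
    · intro k μ hμ
      rcases k with _ | k
      · simp only [iteratedDeriv_zero]
        set μ' := max μ (1/2) with hμ'
        have hμ1 : μ' < 1 := max_lt hμ (by norm_num)
        have hμ0 : 0 < μ' := lt_of_lt_of_le (by norm_num) (le_max_right _ _)
        obtain ⟨C, hC⟩ := hb μ' hμ1
        have hC0 : 0 ≤ C := by
          have := hC 0 le_rfl
          simp only [mul_zero, neg_zero, Real.exp_zero, mul_one] at this
          exact (abs_nonneg _).trans this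
        refine ⟨C / μ', fun y hy => ?_⟩
        refine le_trans ?_ (exp_mono (div_nonneg hC0 hμ0.le) (le_max_left μ (1/2)) hy)
        rw [hFr y hy, abs_neg]
        exact (tail_int hcont hμ0 hC hy).2
      · rw [iter hder k]
        exact hR.2 k μ hμ

end Pool.Agent.Helper41.KV
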