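import Pool.Agent.Helper41.KV.GoalsD

/-!
Packet KV-FZ (MP_66be51_an): the initial right field is in the class.
-/

namespace Pool.Agent.Helper41.KV

open Real MeasureTheory Pool.Agent.Helper33.KV

namespace FZAux

/-- smooth functions vanishing on `[1,∞)` -/
def Hc (h : ℝ → ℝ) : Prop := ContDiff ℝ (⊤ : ℕ∞) h ∧ ∀ x, 1 ≤ x → h x = 0

lemma Hc_deriv {h : ℝ → ℝ} (hh : Hc h) : Hc (deriv h) := by
  refine ⟨(contDiff_infty_iff_deriv.mp hh.1).2, ?_⟩
  intro x hx
  have hd : HasDerivAt h (deriv h x) x :=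
    ((contDiff_infty_iff_deriv.mp hh.1).1 x).hasDerivAt
  have h1 : HasDerivWithinAt h (deriv h x) (Set.Ici x) x := hd.hasDerivWithinAt
  have h2 : HasDerivWithinAt h 0 (Set.Ici x) x := by
    refine (hasDerivWithinAt_const x (Set.Ici x) (0 : ℝ)).congr ?_ (hh.2 x hx)
    intro y hy
    exact hh.2 y (hx.trans hy)
  exact (uniqueDiffOn_Ici x x Set.self_mem_Ici).eq_deriv _ h1 h2

lemma Hc_bdd {h : ℝ → ℝ} (hh : Hc h) : ∃ M : ℝ, 0 ≤ M ∧ ∀ x, 0 < x → |h x| ≤ M := by
  obtain ⟨M, hM⟩ := isCompact_Icc.exists_bound_of_continuousOn (s := Set.Icc (0:ℝ) 1)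
    hh.1.continuous.continuousOn
  refine ⟨max M 0, le_max_right _ _, fun x hx => ?_⟩
  rcases le_total x 1 with h1 | h1
  · exact ((Real.norm_eq_abs _).symm ▸ hM x ⟨hx.le, h1⟩).trans (le_max_left _ _)
  · rw [hh.2 x h1, abs_zero]; exact le_max_right _ _

/-- the basic functions -/
noncomputable def TT (h : ℝ → ℝ) (β : ℝ) (b : ℕ) (x : ℝ) : ℝ :=
  if 0 < x then h x * (x ^ β * Real.log x ^ b) else 0

lemma TT_contDiffOn {h : ℝ → ℝ} (hh : ContDiff ℝ (⊤ : ℕ∞) h) (β : ℝ) (b : ℕ) :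
    ContDiffOn ℝ (⊤ : ℕ∞) (TT h β b) (Set.Ioi 0) := by
  have h1 : ContDiffOn ℝ (⊤ : ℕ∞) (fun x : ℝ => h x * (x ^ β * Real.log x ^ b)) (Set.Ioi 0) := by
    refine hh.contDiffOn.mul (ContDiffOn.mul ?_ (ContDiffOn.pow ?_ b))
    · intro x hx
      exact (Real.contDiffAt_rpow_const_of_ne (ne_of_gt hx)).contDiffWithinAt
    · intro x hx
      exact (Real.contDiffAt_log.mpr (ne_of_gt hx)).contDiffWithinAt
  refine h1.congr ?_
  intro x hx
  exact if_pos hx

lemma TT_contDiffAt {h : ℝ → ℝ} (hh : ContDiff ℝ (⊤ : ℕ∞) h) (β : ℝ) (b : ℕ) {x : ℝ} (hx : 0 < x) :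
    ContDiffAt ℝ (⊤ : ℕ∞) (TT h β b) x :=
  (TT_contDiffOn hh β b).contDiffAt (Ioi_mem_nhds hx)

lemma TT_deriv {h : ℝ → ℝ} (hh : ContDiff ℝ (⊤ : ℕ∞) h) (β : ℝ) (b : ℕ) {x : ℝ} (hx : 0 < x) :
    deriv (TT h β b) x = TT (deriv h) β b x + (β * TT h (β - 1) b x
      + b * TT h (β - 1) (b - 1) x) := by
  have h0 : TT h β b =ᶠ[nhds x] fun x : ℝ => h x * (x ^ β * Real.log x ^ b) := by
    filter_upwards [Ioi_mem_nhds hx] with y hy
    exact if_pos hy
  rw [h0.deriv_eq]
  have h1 : HasDerivAt h (deriv h x) x := ((contDiff_infty_iff_deriv.mp hh).1 x).hasDerivAt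
  have h2 : HasDerivAt (fun x : ℝ => x ^ β) (β * x ^ (β - 1)) x :=
    Real.hasDerivAt_rpow_const (Or.inl hx.ne')
  have h3 : HasDerivAt (fun x : ℝ => Real.log x ^ b) (b * Real.log x ^ (b - 1) * x⁻¹) x :=
    (Real.hasDerivAt_log hx.ne').pow b
  have h4 := h1.mul (h2.mul h3)
  have h5 : deriv (fun x : ℝ => h x * (x ^ β * Real.log x ^ b)) x = _ := h4.deriv
  rw [h5]
  unfold TT
  rw [if_pos hx, if_pos hx, if_pos hx]
  have h6 : x ^ β * x⁻¹ = x ^ (β - 1) := by
    rw [Real.rpow_sub_one hx.ne', div_eq_mul_inv]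
  simp only [Pi.mul_apply]
  rw [← h6]
  ring

lemma log_bound (b : ℕ) {δ : ℝ} (hδ : 0 < δ) : ∃ C : ℝ, 0 ≤ C ∧ ∀ x : ℝ, 0 < x → x ≤ 1 →
    x ^ δ * |Real.log x| ^ b ≤ C := by
  rcases Nat.eq_zero_or_pos b with rfl | hb
  · refine ⟨1, zero_le_one, fun x hx hx1 => ?_⟩
    rw [pow_zero, mul_one]
    exact Real.rpow_le_one hx.le hx1 hδ.le
  · have hb' : (0 : ℝ) < b := by exact_mod_cast hb
    refine ⟨(1 / (δ / b)) ^ b, by positivity, fun x hx hx1 => ?_⟩
    have h1 : |Real.log x * x ^ (δ / b)| < 1 / (δ / b) :=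
      Real.abs_log_mul_self_rpow_lt x (δ / b) hx hx1 (by positivity)
    have h2 : x ^ δ * |Real.log x| ^ b = |Real.log x * x ^ (δ / b)| ^ b := by
      rw [abs_mul, mul_pow, abs_of_pos (Real.rpow_pos_of_pos hx _), ← Real.rpow_natCast (x ^ (δ / b)),
        ← Real.rpow_mul hx.le, div_mul_cancel₀ _ hb'.ne']
      ring
    rw [h2]
    exact pow_le_pow_left₀ (abs_nonneg _) h1.le b

lemma TT_bound (k : ℕ) : ∀ (h : ℝ → ℝ) (β : ℝ) (b : ℕ) (γ : ℝ), Hc h → γ < β →
    ∃ C : ℝ, ∀ x : ℝ, 0 < x → |iteratedDeriv k (TT h β b) x| ≤ C * x ^ (γ - k) := by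
  induction k with
  | zero =>
    intro h β b γ hh hγ
    obtain ⟨M, hM0, hM⟩ := Hc_bdd hh
    obtain ⟨C, hC0, hC⟩ := log_bound b (sub_pos.mpr hγ)
    refine ⟨M * C, fun x hx => ?_⟩
    rw [iteratedDeriv_zero, Nat.cast_zero, sub_zero]
    unfold TT
    rw [if_pos hx, abs_mul, abs_mul, abs_pow, abs_of_pos (Real.rpow_pos_of_pos hx β)]
    have hxg : 0 < x ^ γ := Real.rpow_pos_of_pos hx γ
    rcases le_total x 1 with h1 | h1
    · have h2 : x ^ β = x ^ γ * x ^ (β - γ) := by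
        rw [← Real.rpow_add hx]; congr 1; ring
      calc |h x| * (x ^ β * |Real.log x| ^ b) = |h x| * (x ^ γ * (x ^ (β - γ) * |Real.log x| ^ b)) := by
            rw [h2]; ring
        _ ≤ M * (x ^ γ * C) := by
            apply mul_le_mul (hM x hx) _ (by positivity) hM0
            exact mul_le_mul_of_nonneg_left (hC x hx h1) hxg.le
        _ = M * C * x ^ γ := by ring
    · rw [hh.2 x h1, abs_zero, zero_mul]
      positivity
  | succ k ih =>
    intro h β b γ hh hγ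
    obtain ⟨C1, h1⟩ := ih (deriv h) β b (γ - 1) (Hc_deriv hh) (by linarith)
    obtain ⟨C2, h2⟩ := ih h (β - 1) b (γ - 1) hh (by linarith)
    obtain ⟨C3, h3⟩ := ih h (β - 1) (b - 1) (γ - 1) hh (by linarith)
    refine ⟨C1 + (|β| * C2 + b * C3), fun x hx => ?_⟩
    have e0 : deriv (TT h β b) =ᶠ[nhds x] (TT (deriv h) β b
        + ((fun y => β * TT h (β - 1) b y) + (fun y => (b : ℝ) * TT h (β - 1) (b - 1) y))) := by
      filter_upwards [Ioi_mem_nhds hx] with y hy
      exact TT_deriv hh.1 β b hy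
    have c1 : ContDiffAt ℝ k (TT (deriv h) β b) x :=
      (TT_contDiffAt (Hc_deriv hh).1 β b hx).of_le (by exact_mod_cast le_top)
    have c2 : ContDiffAt ℝ k (TT h (β - 1) b) x :=
      (TT_contDiffAt hh.1 (β - 1) b hx).of_le (by exact_mod_cast le_top)
    have c3 : ContDiffAt ℝ k (TT h (β - 1) (b - 1)) x :=
      (TT_contDiffAt hh.1 (β - 1) (b - 1) hx).of_le (by exact_mod_cast le_top)
    have c2' : ContDiffAt ℝ k (fun y => β * TT h (β - 1) b y) x := contDiffAt_const.mul c2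
    have c3' : ContDiffAt ℝ k (fun y => (b : ℝ) * TT h (β - 1) (b - 1) y) x :=
      contDiffAt_const.mul c3
    have c23 : ContDiffAt ℝ k ((fun y => β * TT h (β - 1) b y)
        + (fun y => (b : ℝ) * TT h (β - 1) (b - 1) y)) x := c2'.add c3'
    rw [iteratedDeriv_succ', e0.iteratedDeriv_eq, iteratedDeriv_add c1 c23,
      iteratedDeriv_add c2' c3', iteratedDeriv_const_mul_field, iteratedDeriv_const_mul_field]
    have e1 : γ - ((k + 1 : ℕ) : ℝ) = γ - 1 - k := by push_cast; ring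
    rw [e1]
    have hp : 0 < x ^ (γ - 1 - k) := Real.rpow_pos_of_pos hx _
    calc |iteratedDeriv k (TT (deriv h) β b) x + (β * iteratedDeriv k (TT h (β - 1) b) x
          + (b : ℝ) * iteratedDeriv k (TT h (β - 1) (b - 1)) x)|
        ≤ |iteratedDeriv k (TT (deriv h) β b) x| + (|β| * |iteratedDeriv k (TT h (β - 1) b) x|
          + (b : ℝ) * |iteratedDeriv k (TT h (β - 1) (b - 1)) x|) := by
          refine (abs_add_le _ _).trans (add_le_add le_rfl ((abs_add_le _ _).trans ?_))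
          rw [abs_mul, abs_mul, Nat.abs_cast]
      _ ≤ C1 * x ^ (γ - 1 - k) + (|β| * (C2 * x ^ (γ - 1 - k)) + (b : ℝ) * (C3 * x ^ (γ - 1 - k))) := by
          apply add_le_add (h1 x hx)
          apply add_le_add
          · exact mul_le_mul_of_nonneg_left (h2 x hx) (abs_nonneg _)
          · exact mul_le_mul_of_nonneg_left (h3 x hx) (Nat.cast_nonneg _)
      _ = (C1 + (|β| * C2 + b * C3)) * x ^ (γ - 1 - k) := by ring

lemma TT_IsS {h : ℝ → ℝ} (hh : Hc h) {β γ : ℝ} (b : ℕ) (hγ : γ < β) : IsS γ (TT h β b) := by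
  refine ⟨TT_contDiffOn hh.1 β b, fun x hx => if_neg (not_lt.mpr hx), fun x hx => ?_,
    fun k => TT_bound k h β b γ hh hγ⟩
  unfold TT
  rw [hh.2 x hx, zero_mul, ite_self]

lemma cut_Hc : Hc (fun x => Real.smoothTransition (2 - 2 * x)) := by
  constructor
  · exact Real.smoothTransition.contDiff.comp (contDiff_const.sub (contDiff_const.mul contDiff_id))
  · intro x hx
    exact Real.smoothTransition.zero_of_nonpos (by linarith)

lemma IsS_sum (hI : S_ISS) {ι : Type} (s : Finset ι) {γ : ℝ} (f : ι → ℝ → ℝ)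
    (hf : ∀ i ∈ s, IsS γ (f i)) : IsS γ (fun x => ∑ i ∈ s, f i x) := by
  classical
  induction s using Finset.induction_on with
  | empty => simpa using hI.2.2.2.2.2.2 γ
  | insert a s ha ih =>
    have h1 := hI.2.1 γ (f a) (fun x => ∑ i ∈ s, f i x) (hf a (Finset.mem_insert_self _ _))
      (ih (fun i hi => hf i (Finset.mem_insert_of_mem hi)))
    simp only [Finset.sum_insert ha]
    exact h1

lemma eval_gZero (p : ℕ → Polynomial ℝ) (J : ℕ) (u v : ℝ) :
    MvPolynomial.eval ![u, v] (gZero p J) = ∑ j ∈ Finset.range J, u ^ j * (p j).eval v := by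
  unfold gZero
  rw [map_sum]
  apply Finset.sum_congr rfl
  intro j _
  rw [map_mul, map_pow, MvPolynomial.eval_X]
  congr 1
  have h1 : MvPolynomial.eval ![u, v] (Polynomial.aeval (MvPolynomial.X 1 : XL) (p j))
      = (p j).eval (MvPolynomial.eval ![u, v] (MvPolynomial.X 1 : XL)) := by
    induction p j using Polynomial.induction_on' with
    | add q r hq hr => rw [map_add, map_add, hq, hr, Polynomial.eval_add]
    | monomial n a =>
      rw [Polynomial.aeval_monomial, map_mul, map_pow, Polynomial.eval_monomial]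
      congr 1
      exact MvPolynomial.eval_C a
  rw [h1, MvPolynomial.eval_X]
  rfl

end FZAux

open FZAux in
theorem thm_FZ (hI : S_ISS) : S_FZ := by
  intro α p J hα _
  have h1 : fZero α p J = fun x => ∑ j ∈ Finset.range J, ∑ b ∈ Finset.range ((p j).natDegree + 1),
      (p j).coeff b * TT (fun x => Real.smoothTransition (2 - 2 * x)) (α - 1/2 + 2 * α * j) b x := by
    funext x
    unfold fZero TT
    by_cases hx : 0 < x
    · simp only [if_pos hx]
      rw [eval_gZero, Finset.mul_sum, Finset.mul_sum]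
      apply Finset.sum_congr rfl
      intro j _
      rw [Polynomial.eval_eq_sum_range, Finset.mul_sum, Finset.mul_sum, Finset.mul_sum]
      apply Finset.sum_congr rfl
      intro b _
      rw [Real.rpow_add hx, Real.rpow_mul hx.le (2 * α) j, Real.rpow_natCast]
      ring
    · simp only [if_neg hx, mul_zero, Finset.sum_const_zero]
  rw [h1]
  apply IsS_sum hI
  intro j _
  apply IsS_sum hI
  intro b _
  apply hI.2.2.1
  apply TT_IsS cut_Hc
  have : 0 ≤ 2 * α * j := by positivity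
  linarith

end Pool.Agent.Helper41.KV
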