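import Pool.Agent.Helper41.KV.GoalsC

/-!
Packet KV-PHI (MP_66be51_an): algebra of the right field.
-/

namespace Pool.Agent.Helper41.KV

open Real MeasureTheory

namespace PHIAux

open MvPolynomial

lemma natDegree_Phi (α : ℝ) (g0 : XL) (n : ℕ) : (Phi α g0 n).natDegree ≤ n := by
  induction n with
  | zero => simp [Phi]
  | succ n ih =>
    rw [Phi]
    refine (Polynomial.natDegree_add_le _ _).trans (max_le (ih.trans (Nat.le_succ n)) ?_)
    exact Polynomial.natDegree_monomial_le _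

lemma coeff_succ (α : ℝ) (g0 : XL) (n i : ℕ) (h : i ≤ n) :
    (Phi α g0 (n + 1)).coeff i = (Phi α g0 n).coeff i := by
  rw [Phi, Polynomial.coeff_add, Polynomial.coeff_monomial, if_neg (by omega), add_zero]

lemma coeff_stable (α : ℝ) (g0 : XL) (i n m : ℕ) (h : i ≤ n) (hm : n ≤ m) :
    (Phi α g0 n).coeff i = (Phi α g0 m).coeff i := by
  induction m, hm using Nat.le_induction with
  | base => rfl
  | succ m hm ih => rw [ih, coeff_succ α g0 m i (h.trans hm)]

lemma coeff_mul_congr {p q p' q' : Polynomial XL} {n : ℕ} (h : ∀ j ≤ n, p.coeff j = p'.coeff j)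
    (h' : ∀ j ≤ n, q.coeff j = q'.coeff j) : ∀ j ≤ n, (p * q).coeff j = (p' * q').coeff j := by
  intro j hj
  rw [Polynomial.coeff_mul, Polynomial.coeff_mul]
  apply Finset.sum_congr rfl
  intro x hx
  rw [Finset.HasAntidiagonal.mem_antidiagonal] at hx
  rw [h x.1 (by omega), h' x.2 (by omega)]

lemma coeff_pow5_congr {p q : Polynomial XL} {n : ℕ} (h : ∀ j ≤ n, p.coeff j = q.coeff j) :
    (p ^ 5).coeff n = (q ^ 5).coeff n := by
  have e : ∀ r : Polynomial XL, r ^ 5 = r * r * r * r * r := fun r => by ring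
  rw [e, e]
  exact coeff_mul_congr (coeff_mul_congr (coeff_mul_congr (coeff_mul_congr h h) h) h) h n le_rfl

lemma rec_eq (α : ℝ) (g0 : XL) (i n : ℕ) (hin : i < n) :
    MvPolynomial.C ((i : ℝ) + 1) * (Phi α g0 n).coeff (i + 1)
      + (bd α (α - 1/2 - 3 * (i : ℝ) - 2) (bd α (α - 1/2 - 3 * (i : ℝ) - 1)
            (bd α (α - 1/2 - 3 * (i : ℝ)) ((Phi α g0 n).coeff i)))
          + MvPolynomial.X 0 ^ 2 * bd α (5 * (α - 1/2) - 3 * (i : ℝ)) ((Phi α g0 n ^ 5).coeff i))
      = 0 := by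
  have h1 : (Phi α g0 n).coeff (i + 1) = (Phi α g0 (i + 1)).coeff (i + 1) :=
    (coeff_stable α g0 (i + 1) (i + 1) n le_rfl hin).symm
  have h2 : (Phi α g0 n).coeff i = (Phi α g0 i).coeff i :=
    (coeff_stable α g0 i i n le_rfl hin.le).symm
  have h3 : (Phi α g0 n ^ 5).coeff i = (Phi α g0 i ^ 5).coeff i :=
    (coeff_pow5_congr fun j hj => coeff_stable α g0 j i n hj hin.le).symm
  have h4 : (Phi α g0 i).coeff (i + 1) = 0 :=
    Polynomial.coeff_eq_zero_of_natDegree_lt (lt_of_le_of_lt (natDegree_Phi α g0 i) (Nat.lt_succ_self i))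
  rw [h1, h2, h3, Phi, Polynomial.coeff_add, Polynomial.coeff_monomial, if_pos rfl, h4, zero_add,
    ← mul_assoc, ← MvPolynomial.C_mul]
  have h5 : ((i : ℝ) + 1) * (-(1 / ((i : ℝ) + 1))) = -1 := by
    have : (i : ℝ) + 1 ≠ 0 := by positivity
    field_simp
  rw [h5, MvPolynomial.C_neg, MvPolynomial.C_1]
  ring

lemma bd_sub (α β : ℝ) (a b : XL) : bd α β a - bd α β b = bd α β (a - b) := by
  unfold bd; rw [map_sub]; ring

lemma delt_X0 (α : ℝ) : delt α (MvPolynomial.X 0) = MvPolynomial.C (2 * α) * MvPolynomial.X 0 := by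
  unfold delt; rw [MvPolynomial.mkDerivation_X]; rfl

lemma delt_X1 (α : ℝ) : delt α (MvPolynomial.X 1) = 1 := by
  unfold delt; rw [MvPolynomial.mkDerivation_X]; rfl

lemma delt_mem (α : ℝ) (j : ℕ) {g : XL} (hg : g ∈ Ideal.span {(MvPolynomial.X 0 ^ j : XL)}) :
    delt α g ∈ Ideal.span {(MvPolynomial.X 0 ^ j : XL)} := by
  rw [Ideal.mem_span_singleton] at hg ⊢
  obtain ⟨c, rfl⟩ := hg
  rw [Derivation.leibniz, smul_eq_mul, smul_eq_mul]
  apply dvd_add (dvd_mul_right _ _)
  apply Dvd.dvd.mul_left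
  rcases j with _ | j
  · simp
  · rw [Derivation.leibniz_pow, delt_X0]
    refine ⟨((j + 1 : ℕ) : XL) * MvPolynomial.C (2 * α), ?_⟩
    simp only [nsmul_eq_mul, smul_eq_mul, Nat.add_sub_cancel]
    ring

lemma bd_mem (α β : ℝ) (j : ℕ) {g : XL} (hg : g ∈ Ideal.span {(MvPolynomial.X 0 ^ j : XL)}) :
    bd α β g ∈ Ideal.span {(MvPolynomial.X 0 ^ j : XL)} :=
  Ideal.add_mem _ (Ideal.mul_mem_left _ _ hg) (delt_mem α j hg)

lemma mul_diff_mem {I : Ideal XL} {p q p' q' : Polynomial XL}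
    (h : ∀ i, p.coeff i - p'.coeff i ∈ I) (h' : ∀ i, q.coeff i - q'.coeff i ∈ I) :
    ∀ i, (p * q).coeff i - (p' * q').coeff i ∈ I := by
  intro i
  rw [Polynomial.coeff_mul, Polynomial.coeff_mul, ← Finset.sum_sub_distrib]
  apply Ideal.sum_mem
  intro x _
  have : p.coeff x.1 * q.coeff x.2 - p'.coeff x.1 * q'.coeff x.2
      = (p.coeff x.1 - p'.coeff x.1) * q.coeff x.2
        + p'.coeff x.1 * (q.coeff x.2 - q'.coeff x.2) := by ring
  rw [this]
  exact I.add_mem (I.mul_mem_right _ (h x.1)) (I.mul_mem_left _ (h' x.2))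

lemma pow5_diff_mem {I : Ideal XL} {p q : Polynomial XL}
    (h : ∀ i, p.coeff i - q.coeff i ∈ I) : ∀ i, (p ^ 5).coeff i - (q ^ 5).coeff i ∈ I := by
  have e : ∀ r : Polynomial XL, r ^ 5 = r * r * r * r * r := fun r => by ring
  rw [e, e]
  exact mul_diff_mem (mul_diff_mem (mul_diff_mem (mul_diff_mem h h) h) h) h

lemma diff_mem (α : ℝ) (g0 : XL) (j : ℕ) (G : XL) (n : ℕ) : ∀ i,
    (Phi α (g0 + MvPolynomial.X 0 ^ j * G) n).coeff i - (Phi α g0 n).coeff i
      ∈ Ideal.span {(MvPolynomial.X 0 ^ j : XL)} := by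
  induction n with
  | zero =>
    intro i
    rw [Phi, Phi, Polynomial.coeff_C, Polynomial.coeff_C]
    split_ifs
    · rw [add_sub_cancel_left]
      exact Ideal.mul_mem_right _ _ (Ideal.mem_span_singleton_self _)
    · rw [sub_zero]; exact Ideal.zero_mem _
  | succ n ih =>
    intro i
    rw [Phi, Phi, Polynomial.coeff_add, Polynomial.coeff_add, Polynomial.coeff_monomial,
      Polynomial.coeff_monomial, add_sub_add_comm]
    apply Ideal.add_mem _ (ih i)
    split_ifs
    · rw [← mul_sub, add_sub_add_comm, ← mul_sub, bd_sub, bd_sub, bd_sub, bd_sub]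
      apply Ideal.mul_mem_left
      apply Ideal.add_mem
      · exact bd_mem _ _ _ (bd_mem _ _ _ (bd_mem _ _ _ (ih n)))
      · exact Ideal.mul_mem_left _ _ (bd_mem _ _ _ (pow5_diff_mem ih n))
    · rw [sub_zero]; exact Ideal.zero_mem _

lemma comm (α : ℝ) (g : XL) :
    MvPolynomial.pderiv 1 (delt α g) = delt α (MvPolynomial.pderiv 1 g) := by
  have h : ⁅(MvPolynomial.pderiv 1 : Derivation ℝ XL XL), delt α⁆ = 0 := by
    apply MvPolynomial.derivation_ext
    intro i
    rw [Derivation.commutator_apply, Derivation.zero_apply]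
    fin_cases i
    · show MvPolynomial.pderiv 1 (delt α (MvPolynomial.X 0))
        - delt α (MvPolynomial.pderiv 1 (MvPolynomial.X 0)) = 0
      rw [delt_X0, MvPolynomial.pderiv_X_of_ne (by decide), map_zero, sub_zero,
        MvPolynomial.pderiv_C_mul, MvPolynomial.pderiv_X_of_ne (by decide), mul_zero]
    · show MvPolynomial.pderiv 1 (delt α (MvPolynomial.X 1))
        - delt α (MvPolynomial.pderiv 1 (MvPolynomial.X 1)) = 0
      rw [delt_X1, MvPolynomial.pderiv_X_self]
      simp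
  have := congrArg (fun D : Derivation ℝ XL XL => D g) h
  simp only [Derivation.commutator_apply, Derivation.zero_apply] at this
  exact sub_eq_zero.mp this

lemma bd_pd (α β : ℝ) {g : XL} (hg : MvPolynomial.pderiv 1 g = 0) :
    MvPolynomial.pderiv 1 (bd α β g) = 0 := by
  unfold bd
  rw [map_add, comm, hg, map_zero, add_zero, MvPolynomial.pderiv_C_mul, hg, mul_zero]

lemma mul_pd {p q : Polynomial XL} (h : ∀ i, MvPolynomial.pderiv 1 (p.coeff i) = 0)
    (h' : ∀ i, MvPolynomial.pderiv 1 (q.coeff i) = 0) :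
    ∀ i, MvPolynomial.pderiv 1 ((p * q).coeff i) = 0 := by
  intro i
  rw [Polynomial.coeff_mul, map_sum]
  apply Finset.sum_eq_zero
  intro x _
  rw [Derivation.leibniz, h, h']
  simp

lemma pow5_pd {p : Polynomial XL} (h : ∀ i, MvPolynomial.pderiv 1 (p.coeff i) = 0) :
    ∀ i, MvPolynomial.pderiv 1 ((p ^ 5).coeff i) = 0 := by
  have e : ∀ r : Polynomial XL, r ^ 5 = r * r * r * r * r := fun r => by ring
  rw [e]
  exact mul_pd (mul_pd (mul_pd (mul_pd h h) h) h) h

lemma Phi_pd (α : ℝ) {g0 : XL} (h0 : MvPolynomial.pderiv 1 g0 = 0) (n : ℕ) :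
    ∀ i, MvPolynomial.pderiv 1 ((Phi α g0 n).coeff i) = 0 := by
  induction n with
  | zero =>
    intro i
    rw [Phi, Polynomial.coeff_C]
    split_ifs
    · exact h0
    · exact map_zero _
  | succ n ih =>
    intro i
    rw [Phi, Polynomial.coeff_add, Polynomial.coeff_monomial, map_add, ih i, zero_add]
    split_ifs
    · rw [MvPolynomial.pderiv_C_mul, map_add, bd_pd _ _ (bd_pd _ _ (bd_pd _ _ (ih n))),
        Derivation.leibniz, bd_pd _ _ (pow5_pd ih n), Derivation.leibniz_pow,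
        MvPolynomial.pderiv_X_of_ne (by decide)]
      simp
    · exact map_zero _

lemma deriv_aeval (a : ℝ) (g : XL) :
    Polynomial.derivative (MvPolynomial.aeval ![Polynomial.C a, (Polynomial.X : Polynomial ℝ)] g)
      = MvPolynomial.aeval ![Polynomial.C a, (Polynomial.X : Polynomial ℝ)]
        (MvPolynomial.pderiv 1 g) := by
  induction g using MvPolynomial.induction_on with
  | C c => simp
  | add p q hp hq => rw [map_add, map_add, map_add, map_add, hp, hq]
  | mul_X p i hp =>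
    rw [map_mul, Polynomial.derivative_mul, hp, Derivation.leibniz, map_add, smul_eq_mul,
      smul_eq_mul, map_mul, map_mul, MvPolynomial.aeval_X]
    fin_cases i
    · simp
      ring
    · simp
      ring

lemma eval_eq (g : XL) (a b b' : ℝ) (h : MvPolynomial.pderiv 1 g = 0) :
    MvPolynomial.eval ![a, b] g = MvPolynomial.eval ![a, b'] g := by
  have h1 := deriv_aeval a g
  rw [h, map_zero] at h1
  have h2 := Polynomial.eq_C_of_derivative_eq_zero h1
  have h3 : ∀ b : ℝ, MvPolynomial.eval ![a, b] g = Polynomial.eval b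
      (MvPolynomial.aeval ![Polynomial.C a, (Polynomial.X : Polynomial ℝ)] g) := by
    intro b
    rw [← Polynomial.coe_evalRingHom]
    have h4 := MvPolynomial.map_aeval (R := ℝ) ![Polynomial.C a, (Polynomial.X : Polynomial ℝ)]
      (Polynomial.evalRingHom b) g
    rw [h4]
    rw [MvPolynomial.coe_eval₂Hom]
    unfold MvPolynomial.eval
    rw [MvPolynomial.coe_eval₂Hom]
    congr 1
    · ext x; simp
    · funext i; fin_cases i <;> simp
  rw [h3 b, h3 b', h2, Polynomial.eval_C, Polynomial.eval_C]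

end PHIAux

open PHIAux in
theorem thm_PHI : S_PHI := by
  refine ⟨natDegree_Phi, coeff_stable, rec_eq, fun α g0 j G n i => diff_mem α g0 j G n i, ?_,
    fun α g0 n i h => Phi_pd α h n i, eval_eq⟩
  intro α g0 n
  rw [← coeff_stable α g0 0 0 n le_rfl (Nat.zero_le n), Phi, Polynomial.coeff_C_zero]

end Pool.Agent.Helper41.KV
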